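import Pool.Agent.H.MP_592c03_gt.B

/-! Asymptotics of the higher twist numbers of weaving knots. -/

namespace Pool.Agent.Results.MP_592c03_gt.Holds

open Finset LaurentPolynomial Filter Topology Equiv Pool.Agent.H.MP_592c03_gt

/-- Closed braid diagram on `p` strands. Crossings (levels) are indexed by `ι` and `nx k` is the
level after `k` (cyclically); the crossing at level `k` is between the strand positions `col k` and
`col k + 1`. The arc `(k, a)` is the piece of position `a` just above level `k`. `adj` joins two arcs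
that are joined after smoothing: crossing `k` is smoothed to cup-and-cap if `h k`, and to two
vertical strands otherwise. -/
def adj {ι : Type} (nx : ι → ι) (p : ℕ) (col : ι → ℕ) (h : ι → Prop) (a b : ι × Fin p) : Prop :=
  (b.1 = nx a.1 ∧ b.2 = a.2 ∧ ¬ (h a.1 ∧ ((a.2 : ℕ) = col a.1 ∨ (a.2 : ℕ) = col a.1 + 1))) ∨
    ∃ k, h k ∧ a.1 = b.1 ∧ (a.1 = k ∨ a.1 = nx k) ∧ (a.2 : ℕ) = col k ∧ (b.2 : ℕ) = col k + 1

/-- The Kauffman bracket (variable `A = T 1`) as a state sum; `s k = true` is the `A`-smoothing,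
which is the vertical one exactly at the positive crossings (`pos k = true`). -/
noncomputable def bracket {ι : Type} [Fintype ι] [DecidableEq ι] (nx : ι → ι) (p : ℕ)
    (col : ι → ℕ) (pos : ι → Bool) : LaurentPolynomial ℤ :=
  ∑ s : ι → Bool, (∏ k, T (if s k then 1 else -1)) *
    (-T 2 - T (-2)) ^ (Nat.card (Quot (adj nx p col fun k => s k ≠ pos k)) - 1)

/-- The Jones polynomial `(-A^3)^(-writhe) <D>` at `A = t^(-1/4)`, in the variable `t^(1/4)`. -/
noncomputable def jones {ι : Type} [Fintype ι] [DecidableEq ι] (nx : ι → ι) (p : ℕ)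
    (col : ι → ℕ) (pos : ι → Bool) : LaurentPolynomial ℤ :=
  invert ((∏ k, -T (if pos k then -3 else 3)) * bracket nx p col pos)

/-- `T_j = |λ_(l+j)| + |λ_(h-j)|` for a Laurent polynomial in `t^(1/4)`. -/
noncomputable def twist (V : LaurentPolynomial ℤ) (j : ℕ) : ℤ :=
  |V.coeff (sInf {e | V.coeff e ≠ 0} + 4 * j)| + |V.coeff (sSup {e | V.coeff e ≠ 0} - 4 * j)|

/-- The Jones polynomial of `W(n+1, m)`, the closure of `(σ₁ σ₂⁻¹ σ₃ σ₄⁻¹ ⋯ σₙ^±)^m`. -/
noncomputable def weaving (n m : ℕ) : LaurentPolynomial ℤ :=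
  jones (finRotate (m * n)) (n + 1) (fun k => k % n) fun k => decide ((k : ℕ) % n % 2 = 0)

section
variable {L n : ℕ} [NeZero L]

/-- column of a level -/
def col (n : ℕ) (k : ZMod L) : ℕ := k.val % n

lemma col_lt (hn : 2 ≤ n) (k : ZMod L) : col n k < n := Nat.mod_lt _ (by omega)

/-- left position -/
def pa (hn : 2 ≤ n) (k : ZMod L) : Fin (n + 1) := ⟨col n k, by have := col_lt hn k; omega⟩

/-- right position -/
def pb (hn : 2 ≤ n) (k : ZMod L) : Fin (n + 1) := ⟨col n k + 1, by have := col_lt hn k; omega⟩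

/-- direction -/
def eps (q : Fin (n + 1)) : ZMod L := if (q : ℕ) % 2 = 0 then 1 else -1

open Classical in
/-- the oriented state permutation -/
noncomputable def rho (hn : 2 ≤ n) (h : ZMod L → Prop) : Perm (ZMod L × Fin (n + 1)) :=
  prodCongrLeft (fun q => Equiv.addRight (eps q)) *
    prodCongrRight fun k => if h k then swap (pa hn k) (pb hn k) else 1

lemma rho_ne (hn : 2 ≤ n) (h : ZMod L → Prop) (k : ZMod L) (q : Fin (n + 1))
    (hq : ¬ (h k ∧ ((q : ℕ) = col n k ∨ (q : ℕ) = col n k + 1))) :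
    rho hn h (k, q) = (k + eps q, q) := by
  simp only [rho, Perm.mul_apply, prodCongrRight_apply, prodCongrLeft_apply, coe_addRight]
  by_cases hk : h k
  · rw [if_pos hk, swap_apply_of_ne_of_ne]
    · rintro rfl; exact hq ⟨hk, Or.inl rfl⟩
    · rintro rfl; exact hq ⟨hk, Or.inr rfl⟩
  · simp [hk]

lemma rho_a (hn : 2 ≤ n) (h : ZMod L → Prop) (k : ZMod L) (hk : h k) :
    rho hn h (k, pa hn k) = (k + eps (pb hn k), pb hn k) := by
  simp [rho, prodCongrRight_apply, prodCongrLeft_apply, hk]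

lemma rho_b (hn : 2 ≤ n) (h : ZMod L → Prop) (k : ZMod L) (hk : h k) :
    rho hn h (k, pb hn k) = (k + eps (pa hn k), pa hn k) := by
  simp [rho, prodCongrRight_apply, prodCongrLeft_apply, hk]

lemma rho_flip (hn : 2 ≤ n) (h h' : ZMod L → Prop) (e : ZMod L) (he : h' e ↔ ¬ h e)
    (ho : ∀ k, k ≠ e → (h' k ↔ h k)) :
    rho hn h' = rho hn h * swap (e, pa hn e) (e, pb hn e) := by
  ext1 ⟨k, q⟩
  simp only [rho, Perm.mul_apply]
  congr 1
  by_cases hk : k = e
  · subst hk
    rw [(Prod.mk_right_injective k).swap_apply]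
    by_cases h0 : h k <;> simp [prodCongrRight_apply, he, h0]
  · rw [swap_apply_of_ne_of_ne (by simp [hk]) (by simp [hk])]
    by_cases h0 : h k <;> simp [prodCongrRight_apply, ho k hk, h0]

/-- from incoming coordinates to arcs -/
def phi : ZMod L × Fin (n + 1) ≃ ZMod L × Fin (n + 1) :=
  prodCongrLeft fun q => Equiv.addRight (if (q : ℕ) % 2 = 0 then 0 else 1)

lemma phi_apply (k : ZMod L) (q : Fin (n + 1)) :
    phi (k, q) = (k + if (q : ℕ) % 2 = 0 then 0 else 1, q) := rfl

lemma mk_phi (hn : 2 ≤ n) (h : ZMod L → Prop) (z : ZMod L × Fin (n + 1)) :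
    Quot.mk (adj (· + 1) (n + 1) (col n) h) (phi z) = Quot.mk _ (phi (rho hn h z)) := by
  obtain ⟨k, q⟩ := z
  by_cases hq : h k ∧ ((q : ℕ) = col n k ∨ (q : ℕ) = col n k + 1)
  · obtain ⟨hk, hq | hq⟩ := hq
    · obtain rfl : q = pa hn k := Fin.ext hq
      rw [rho_a hn h k hk, phi_apply, phi_apply]
      refine Quot.sound (Or.inr ⟨k, hk, ?_, ?_, rfl, rfl⟩) <;>
        rcases Nat.mod_two_eq_zero_or_one (col n k) with h2 | h2 <;>
        simp [eps, pa, pb, h2, Nat.add_mod]
    · obtain rfl : q = pb hn k := Fin.ext hq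
      rw [rho_b hn h k hk, phi_apply, phi_apply]
      refine Eq.symm (Quot.sound (Or.inr ⟨k, hk, ?_, ?_, rfl, rfl⟩)) <;>
        rcases Nat.mod_two_eq_zero_or_one (col n k) with h2 | h2 <;>
        simp [eps, pa, pb, h2, Nat.add_mod]
  · rw [rho_ne hn h k q hq, phi_apply, phi_apply]
    by_cases h2 : (q : ℕ) % 2 = 0
    · exact Quot.sound (Or.inl ⟨by simp [eps, h2], rfl, by simpa [h2] using hq⟩)
    · exact Eq.symm (Quot.sound (Or.inl ⟨by simp [eps, h2], rfl, by simpa [eps, h2] using hq⟩))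

lemma loops_eq (hn : 2 ≤ n) (h : ZMod L → Prop) :
    Nat.card (Quot (adj (· + 1) (n + 1) (col n) h)) = cyc (rho hn h) := by
  refine le_antisymm (card_le _ (fun z => Quot.mk _ (phi z))
    (Quot.mk_surjective.comp phi.surjective) fun a b hab => hab ▸ mk_phi hn h a)
    (card_le _ (fun z => Quot.mk _ (phi.symm z)) (Quot.mk_surjective.comp phi.symm.surjective) ?_)
  have key : ∀ a b : ZMod L × Fin (n + 1), adj (· + 1) (n + 1) (col n) h (phi a) (phi b) →
      Quot.mk (fun a b => rho hn h a = b) a = Quot.mk _ b := by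
    rintro ⟨k, q⟩ ⟨k', q'⟩ (⟨h1, h2, h3⟩ | ⟨e, he, h1, h2, h3, h4⟩)
    · simp only [phi_apply] at h1 h2 h3
      subst h2
      rw [add_right_comm, add_left_inj] at h1
      subst h1
      by_cases h2 : (q' : ℕ) % 2 = 0
      · exact Quot.sound (by rw [rho_ne hn h k q' (by simpa [h2] using h3)]; simp [eps, h2])
      · exact (Quot.sound (by
          rw [rho_ne hn h (k + 1) q' (by simpa [h2] using h3)]; simp [eps, h2])).symm
    · simp only [phi_apply] at h1 h2 h3 h4
      obtain rfl : q = pa hn e := Fin.ext h3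
      obtain rfl : q' = pb hn e := Fin.ext h4
      have a1 := rho_a hn h e he
      have a2 := rho_b hn h e he
      rcases Nat.mod_two_eq_zero_or_one (col n e) with h5 | h5
      · have b1 : (pa hn e : ℕ) % 2 = 0 := h5
        have b2 : ¬ (pb hn e : ℕ) % 2 = 0 := by simp [pb]; omega
        simp only [eps, b1, b2, if_true, if_false, add_zero] at h1 h2 a1 a2
        rcases h2 with rfl | rfl
        · exact Quot.sound (a1.trans (by rw [h1]; simp))
        · obtain rfl : e = k' := add_right_cancel h1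
          exact Eq.symm (Quot.sound a2)
      · have b1 : ¬ (pa hn e : ℕ) % 2 = 0 := by simp [pa]; omega
        have b2 : (pb hn e : ℕ) % 2 = 0 := by simp [pb]; omega
        simp only [eps, b1, b2, if_true, if_false, add_zero] at h1 h2 a1 a2
        subst h1
        rcases h2 with rfl | h2
        · exact Eq.symm (Quot.sound (a2.trans (by simp)))
        · obtain rfl : k = e := add_right_cancel h2
          exact Quot.sound a1
  intro a b hab
  exact key _ _ (by simpa using hab)

lemma cyc_upper (hn : 2 ≤ n) (S : Finset (ZMod L)) :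
    cyc (rho hn (· ∈ S)) ≤ n + 1 + S.card := by
  induction S using Finset.induction_on with
  | empty =>
    have key : ∀ (q : Fin (n + 1)) (i : ℕ),
        Quot.mk (fun a b => rho hn (· ∈ (∅ : Finset (ZMod L))) a = b) (0, q) =
          Quot.mk _ ((i : ZMod L) * eps q, q) := by
      intro q i
      induction i with
      | zero => simp
      | succ i ih =>
        exact ih.trans (Quot.sound (by rw [rho_ne _ _ _ _ (by simp)]; simp [add_mul]))
    have := Nat.card_le_card_of_surjective (fun q : Fin (n + 1) =>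
      Quot.mk (fun a b => rho hn (· ∈ (∅ : Finset (ZMod L))) a = b) (0, q)) fun z => by
        obtain ⟨⟨k, q⟩, rfl⟩ := Quot.exists_rep z
        refine ⟨q, (key q (k * eps q).val).trans ?_⟩
        rw [ZMod.natCast_zmod_val, mul_assoc, show (eps q : ZMod L) * eps q = 1 by
          unfold eps; split_ifs <;> simp, mul_one]
    simpa [cyc] using this
  | insert e S he ih =>
    rw [rho_flip hn (· ∈ S) (· ∈ insert e S) e (by simp [he]) (fun k hk => by simp [hk]),
      card_insert_of_notMem he]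
    have := cyc_swap_le (rho hn (· ∈ S)) (e, pa hn e) (e, pb hn e)
    omega

lemma mod_small {a n : ℕ} (h : a < 2 * n) : a % n = if a < n then a else a - n := by
  split_ifs with h1
  · exact Nat.mod_eq_of_lt h1
  · rw [Nat.mod_eq_sub_mod (by omega), Nat.mod_eq_of_lt (by omega)]

lemma col_succ (hn : 2 ≤ n) (hd : n ∣ L) (hL : 3 * n ≤ L) (k : ZMod L) :
    col n (k + 1) = if col n k + 1 < n then col n k + 1 else 0 := by
  have : Fact (1 < L) := ⟨by omega⟩
  have := col_lt hn k
  rw [col, ZMod.val_add, ZMod.val_one, Nat.mod_mod_of_dvd _ hd, ← Nat.mod_add_mod,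
    show k.val % n = col n k from rfl, mod_small (by omega)]
  split_ifs <;> omega

/-- top crossing of the face in (shifted) column `c` next to an arc at level `k` -/
def tp (n c : ℕ) (k : ZMod L) : ZMod L := k - 1 - ((col n k + n - c) % n : ℕ)

lemma tp_succ (hn : 2 ≤ n) (hd : n ∣ L) (hL : 3 * n ≤ L) (c : ℕ) (h1 : 1 ≤ c) (h2 : c ≤ n)
    (k : ZMod L) (h : col n k + 1 ≠ c) : tp n c (k + 1) = tp n c k := by
  have := col_lt hn k
  have e : (col n (k + 1) + n - c) % n = (col n k + n - c) % n + 1 := by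
    rw [col_succ hn hd hL, mod_small (a := col n k + n - c) (by omega),
      mod_small (by split_ifs <;> omega)]
    split_ifs <;> omega
  rw [tp, tp, e]
  push_cast
  ring

lemma tp_succ' (hn : 2 ≤ n) (hd : n ∣ L) (hL : 3 * n ≤ L) (k : ZMod L) :
    tp n (col n k + 1) (k + 1) = k := by
  have := col_lt hn k
  have e : (col n (k + 1) + n - (col n k + 1)) % n = 0 := by
    rw [col_succ hn hd hL, mod_small (by split_ifs <;> omega)]
    split_ifs <;> omega
  simp [tp, e]

/-- face label of an arc -/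
def lab0 (n π : ℕ) (z : ZMod L × Fin (n + 1)) : ℕ × ZMod L :=
  let c := if (z.2 : ℕ) % 2 = π then (z.2 : ℕ) + 1 else z.2
  (c, if c = 0 ∨ c = n + 1 then 0 else tp n c z.1)

lemma lab0_adj (hn : 2 ≤ n) (hd : n ∣ L) (hL : 3 * n ≤ L) {π : ℕ} (hπ : π < 2)
    (a b : ZMod L × Fin (n + 1))
    (h : adj (· + 1) (n + 1) (col n) (fun k => col n k % 2 = π) a b) :
    lab0 n π a = lab0 n π b := by
  obtain ⟨k, q⟩ := a
  obtain ⟨k', q'⟩ := b
  rcases h with ⟨h1, h2, h3⟩ | ⟨e, he, h1, -, h3, h4⟩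
  · simp only at h1 h2 h3
    subst h1 h2
    have := q'.2
    simp only [lab0, Prod.mk.injEq, true_and]
    split_ifs <;> first | rfl | exact (tp_succ hn hd hL _ (by omega) (by omega) k (by omega)).symm
  · simp only at h1 h3 h4 he
    subst h1
    simp only [lab0, h3, h4, he, if_true, if_neg (show (col n e + 1) % 2 ≠ π by omega)]

/-- first end of the Tait edge -/
def uu (n π : ℕ) (e : ZMod L) : ℕ × ZMod L :=
  if col n e % 2 = π then (col n e + 1, e - n) else (col n e, if col n e = 0 then 0 else e - 1)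

/-- second end of the Tait edge -/
def vv (n π : ℕ) (e : ZMod L) : ℕ × ZMod L :=
  if col n e % 2 = π then (col n e + 1, e) else
    (col n e + 2, if col n e + 1 = n then 0 else e - (n - 1 : ℕ))

lemma ends (hn : 2 ≤ n) (hd : n ∣ L) (hL : 3 * n ≤ L) {π : ℕ} (hπ : π < 2) (e : ZMod L) :
    (lab0 n π (phi (e, pa hn e)) = uu n π e ∧ lab0 n π (phi (e, pb hn e)) = vv n π e) ∨
    (lab0 n π (phi (e, pa hn e)) = vv n π e ∧ lab0 n π (phi (e, pb hn e)) = uu n π e) := by
  have hc := col_lt hn e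
  have t1 : tp n (col n e + 1) e = e - n := by
    rw [tp, show col n e + n - (col n e + 1) = n - 1 by omega, Nat.mod_eq_of_lt (by omega),
      Nat.cast_sub (by omega)]
    push_cast; ring
  have t2 := tp_succ' hn hd hL e
  by_cases h : col n e % 2 = π
  · have h' : ¬ (col n e + 1) % 2 = π := by omega
    have h'' : ¬ col n e = n := by omega
    rcases Nat.mod_two_eq_zero_or_one (col n e) with h5 | h5
    · have h6 : ¬ (col n e + 1) % 2 = 0 := by omega
      left
      simp only [lab0, phi_apply, pa, pb, uu, vv, h', h6, if_pos h, if_pos h5, if_false, add_zero]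
      simp [t1, t2, h'']
    · have h6 : (col n e + 1) % 2 = 0 := by omega
      have h7 : ¬ col n e % 2 = 0 := by omega
      right
      simp only [lab0, phi_apply, pa, pb, uu, vv, if_neg h', if_pos h6, if_pos h, if_neg h7,
        add_zero]
      simp [t1, t2, h'']
  · have h' : (col n e + 1) % 2 = π := by omega
    left
    simp only [lab0, phi_apply, pa, pb, uu, vv, if_neg h, if_pos h', Prod.mk.injEq, true_and]
    constructor
    · by_cases h0 : col n e = 0
      · simp [h0]
      · have t3 : tp n (col n e) e = e - 1 := by simp [tp]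
        rw [if_neg (by omega), if_neg h0]
        split_ifs
        · rw [add_zero, t3]
        · rw [tp_succ hn hd hL _ (by omega) (by omega) e (by omega), t3]
    · by_cases h0 : col n e + 1 = n
      · simp [h0]
      · have t3 : tp n (col n e + 1 + 1) e = e - (n - 1 : ℕ) := by
          rw [tp, show col n e + n - (col n e + 1 + 1) = n - 2 by omega,
            Nat.mod_eq_of_lt (by omega), Nat.cast_sub (by omega), Nat.cast_sub (by omega)]
          push_cast; ring
        rw [if_neg (by omega), if_neg h0]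
        split_ifs
        · rw [add_zero, t3]
        · rw [tp_succ hn hd hL _ (by omega) (by omega) e (by omega), t3]

lemma cast_ne (hL : 3 * n ≤ L) {a : ℕ} (h0 : 0 < a) (ha : a < 3 * n) : (a : ZMod L) ≠ 0 := by
  rw [Ne, ZMod.natCast_eq_zero_iff]
  exact Nat.not_dvd_of_pos_of_lt h0 (by omega)

lemma uv_ne (hn : 2 ≤ n) (hL : 3 * n ≤ L) (π : ℕ) (e : ZMod L) : uu n π e ≠ vv n π e := by
  have := cast_ne (a := n) hL (by omega) (by omega)
  unfold uu vv
  split_ifs <;> simp [this]

lemma uv_hub (hn : 2 ≤ n) (π : ℕ) (e : ZMod L) :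
    ∃ w, (w = uu n π e ∨ w = vv n π e) ∧ ¬ (w.1 = 0 ∨ w.1 = n + 1) := by
  have := col_lt hn e
  by_cases h : col n e % 2 = π
  · exact ⟨_, Or.inl rfl, by simp only [uu, if_pos h]; omega⟩
  by_cases h0 : col n e = 0
  · exact ⟨_, Or.inr rfl, by simp only [vv, if_neg h]; omega⟩
  · exact ⟨_, Or.inl rfl, by simp only [uu, if_neg h]; omega⟩

lemma uv_par (hn : 2 ≤ n) (hL : 3 * n ≤ L) (π : ℕ) (e f : ZMod L) (hef : e ≠ f) :
    ∃ w, (w = uu n π e ∨ w = vv n π e) ∧ uu n π f ≠ w ∧ vv n π f ≠ w := by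
  by_contra H
  push Not at H
  have h1 : uu n π f = uu n π e ∨ vv n π f = uu n π e := or_iff_not_imp_left.2 (H _ (Or.inl rfl))
  have h2 : uu n π f = vv n π e ∨ vv n π f = vv n π e := or_iff_not_imp_left.2 (H _ (Or.inr rfl))
  have h3 : (uu n π f = uu n π e ∧ vv n π f = vv n π e) ∨
      (vv n π f = uu n π e ∧ uu n π f = vv n π e) := by
    have := uv_ne hn hL π e
    rcases h1 with h1 | h1 <;> rcases h2 with h2 | h2
    exacts [absurd (h1.symm.trans h2) this, Or.inl ⟨h1, h2⟩, Or.inr ⟨h1, h2⟩,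
      absurd (h1.symm.trans h2) this]
  clear h1 h2 H
  have c2 := cast_ne (a := 2 * n) hL (by omega) (by omega)
  push_cast at c2
  by_cases he : col n e % 2 = π <;> by_cases hf : col n f % 2 = π <;>
    simp only [uu, vv, he, hf, if_true, if_false, Prod.mk.injEq] at h3
  · rcases h3 with ⟨-, -, h2⟩ | ⟨⟨-, h1⟩, -, h2⟩
    · exact hef h2.symm
    · exact c2 (by linear_combination h1 - h2)
  · omega
  · omega
  · rcases h3 with ⟨⟨hc, h1⟩, -, h2⟩ | h3
    · rw [hc] at h1 h2
      by_cases h0 : col n e = 0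
      · rw [if_neg (by omega), if_neg (by omega)] at h2
        exact hef (sub_left_injective h2).symm
      · rw [if_neg h0, if_neg h0] at h1
        exact hef (sub_left_injective h1).symm
    · omega

lemma uv_near (hn : 2 ≤ n) (π : ℕ) (e : ZMod L) (w : ℕ × ZMod L)
    (hw : w = uu n π e ∨ w = vv n π e) (hh : ¬ (w.1 = 0 ∨ w.1 = n + 1)) :
    ∃ d ≤ n, w.2 = e - (d : ℕ) := by
  by_cases h : col n e % 2 = π <;> simp only [uu, vv, h, if_true, if_false] at hw <;>
    rcases hw with rfl | rfl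
  · exact ⟨n, le_rfl, rfl⟩
  · exact ⟨0, by omega, by simp⟩
  · exact ⟨1, by omega, by simp only at hh ⊢; rw [if_neg (by omega)]; simp⟩
  · exact ⟨n - 1, by omega, by simp only at hh ⊢; rw [if_neg (by omega)]⟩

/-- number of loops of the state obtained from the base state `π` by flipping `S` -/
noncomputable def lp (hn : 2 ≤ n) (π : ℕ) (S : Finset (ZMod L)) : ℕ :=
  cyc (rho hn fun k => (k ∈ S ↔ ¬ col n k % 2 = π))

lemma est (hn : 2 ≤ n) (hd : n ∣ L) (hL : 3 * n ≤ L) {π : ℕ} (hπ : π < 2) :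
    (∀ e, (L : ℤ) + 2 * lp (L := L) hn π ∅ - 2 < e → (Br (lp (L := L) hn π)).coeff e = 0) ∧
    (Br (lp (L := L) hn π)).coeff ((L : ℤ) + 2 * lp (L := L) hn π ∅ - 2) ≠ 0 ∧
    ∀ k : ℕ, |(((Br (lp (L := L) hn π)).coeff
        ((L : ℤ) + 2 * lp (L := L) hn π ∅ - 2 - 4 * k) : ℤ) : ℝ) -
      ∑ j ∈ range (k + 1), (L.choose j : ℝ) * ((-1) ^ (lp (L := L) hn π ∅ + j + 1) *
        ((lp (L := L) hn π ∅ - j - 1).choose (k - j) : ℝ))| * L ≤
      (∑ j ∈ range (k + 1), (j * 2 ^ (j * (2 * n + 1) * (2 * n + 1) * (2 * n + 1)) *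
        (2 * ((n + 1 : ℕ) : ℝ) ^ (k - j)) : ℝ)) * (L : ℝ) ^ k := by
  have flip : ∀ (S : Finset (ZMod L)) e, e ∉ S →
      rho hn (fun k => (k ∈ insert e S ↔ ¬ col n k % 2 = π)) =
        rho hn (fun k => (k ∈ S ↔ ¬ col n k % 2 = π)) * swap (e, pa hn e) (e, pb hn e) :=
    fun S e he => rho_flip hn _ _ e (by simp [he]) fun k hk => by simp [hk]
  have := top_est (lp (L := L) hn π) (uu n π) (vv n π) (fun w => w.1 = 0 ∨ w.1 = n + 1)
    (fun e => (range (2 * n + 1)).image fun i : ℕ => e + i - n)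
    (fun S => Nat.card_pos) (fun S e he => by rw [lp, flip S e he]; exact cyc_swap_le _ _ _)
    (fun S e he => by rw [lp, lp, flip S e he]; exact le_cyc_swap _ _ _)
    (fun S e he w hw hp => merge_of_private
      (fun S : Finset (ZMod L) => rho hn fun k => (k ∈ S ↔ ¬ col n k % 2 = π))
      (fun e => (e, pa hn e)) (fun e => (e, pb hn e)) (fun z => lab0 n π (phi z)) flip
      (fun z => by
        have e1 : (fun k : ZMod L => (k ∈ (∅ : Finset (ZMod L)) ↔ ¬ col n k % 2 = π)) =
          fun k => col n k % 2 = π := by ext; simp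
        simp only [e1]
        exact (congrArg (Quot.lift (lab0 n π) (lab0_adj hn hd hL hπ)) (mk_phi hn _ z)).symm)
      (fun e => by
        rcases ends hn hd hL hπ e with ⟨h1, h2⟩ | ⟨h1, h2⟩ <;> simp only [h1, h2]
        exacts [uv_ne hn hL π e, (uv_ne hn hL π e).symm])
      S e he w
      (by rcases ends hn hd hL hπ e with ⟨h1, h2⟩ | ⟨h1, h2⟩ <;> simp only [h1, h2]
          exacts [hw, hw.symm])
      (fun f hf => by
        rcases ends hn hd hL hπ f with ⟨h1, h2⟩ | ⟨h1, h2⟩ <;> simp only [h1, h2]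
        exacts [hp f hf, (hp f hf).symm]))
    (uv_hub hn π) (uv_par hn hL π)
    (fun e f w hw hh hf => by
      obtain ⟨d, hd, h1⟩ := uv_near hn π e w hw hh
      obtain ⟨d', hd', h2⟩ := uv_near hn π f w (hf.imp Eq.symm Eq.symm) hh
      refine mem_image.2 ⟨d' + n - d, mem_range.2 (by omega), ?_⟩
      rw [Nat.cast_sub (by omega)]
      push_cast
      linear_combination h2 - h1)
    (2 * n + 1) (n + 1) (fun e => card_image_le.trans (by simp)) (by rw [ZMod.card]; omega)
    (fun S => (cyc_le_card _).trans (by simp [mul_comm]))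
  rwa [ZMod.card] at this

lemma lp_bounds (hn : 2 ≤ n) (hd : n ∣ L) (hL : 3 * n ≤ L) {π : ℕ} (hπ : π < 2) :
    (univ.filter fun k : ZMod L => col n k % 2 = π).card ≤ lp (L := L) hn π ∅ ∧
    lp (L := L) hn π ∅ ≤ n + 1 + (univ.filter fun k : ZMod L => col n k % 2 = π).card := by
  constructor
  · have e1 : (fun k : ZMod L => (k ∈ (∅ : Finset (ZMod L)) ↔ ¬ col n k % 2 = π)) =
      fun k => col n k % 2 = π := by ext; simp
    rw [lp, e1, ← loops_eq, ← Fintype.card_coe, ← Nat.card_eq_fintype_card]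
    refine Nat.card_le_card_of_injective (fun k => Quot.mk _ (k.1 + 1, pa hn k.1)) ?_
    rintro ⟨a, ha⟩ ⟨b, hb⟩ h
    have key : ∀ k : ZMod L, col n k % 2 = π → (lab0 n π (k + 1, pa hn k)).2 = k := by
      intro k hk
      have := col_lt hn k
      simp only [lab0, pa, if_pos hk]
      rw [if_neg (by omega), tp_succ' hn hd hL]
    have := congrArg (fun z => (Quot.lift (lab0 n π) (lab0_adj hn hd hL hπ) z).2) h
    simp only [key a (mem_filter.1 ha).2, key b (mem_filter.1 hb).2] at this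
    exact Subtype.ext this
  · convert cyc_upper hn (univ.filter fun k : ZMod L => col n k % 2 = π) using 1
    unfold lp
    congr 2
    ext; simp

lemma prod_T {ι : Type} (s : Finset ι) (f : ι → ℤ) :
    ∏ k ∈ s, (T (f k) : LaurentPolynomial ℤ) = T (∑ k ∈ s, f k) := by
  classical
  induction s using Finset.induction_on with
  | empty => simp
  | insert a s ha ih => rw [prod_insert ha, sum_insert ha, T_add, ih]

lemma sum_pm (S : Finset (ZMod L)) :
    ∑ k : ZMod L, (if k ∈ S then -1 else 1 : ℤ) = Fintype.card (ZMod L) - 2 * S.card := by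
  have : ∀ k : ZMod L, (if k ∈ S then -1 else 1 : ℤ) = 1 - 2 * if k ∈ S then 1 else 0 :=
    fun k => by split_ifs <;> simp
  simp [this, sum_sub_distrib, mul_comm]

lemma bracket_A (hn : 2 ≤ n) : bracket (· + 1) (n + 1) (col (L := L) n)
    (fun k => decide (col n k % 2 = 0)) = Br (lp (L := L) hn 1) := by
  symm
  refine Fintype.sum_bijective (fun S k => decide (k ∉ S)) ⟨fun S S' h => ?_, fun s => ?_⟩ _ _
    fun S => ?_
  · ext k; simpa using congrFun h k
  · exact ⟨univ.filter fun k => s k = false, by ext k; simp⟩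
  · rw [loops_eq hn, prod_T, ← sum_pm, lp]
    congr 2
    · exact sum_congr rfl fun k _ => by by_cases h : k ∈ S <;> simp [h]
    · congr 3
      ext k
      by_cases h : k ∈ S <;> simp [h]

lemma bracket_B (hn : 2 ≤ n) : invert (bracket (· + 1) (n + 1) (col (L := L) n)
    (fun k => decide (col n k % 2 = 0))) = Br (lp (L := L) hn 0) := by
  symm
  rw [bracket, map_sum]
  refine Fintype.sum_bijective (fun S k => decide (k ∈ S)) ⟨fun S S' h => ?_, fun s => ?_⟩ _ _
    fun S => ?_
  · ext k; simpa using congrFun h k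
  · exact ⟨univ.filter fun k => s k = true, by ext k; simp⟩
  · rw [loops_eq hn, prod_T, ← sum_pm, lp, map_mul, map_pow, invert_T, map_sub, map_neg, invert_T,
      invert_T, neg_neg, ← sum_neg_distrib]
    congr 2
    · exact sum_congr rfl fun k _ => by by_cases h : k ∈ S <;> simp [h]
    · ring
    · congr 3
      ext k
      by_cases h : k ∈ S <;> simp [h]

lemma twist_eq (hn : 2 ≤ n) (hd : n ∣ L) (hL : 3 * n ≤ L) (k : ℕ) :
    twist (jones (· + 1) (n + 1) (col (L := L) n) fun k => decide (col n k % 2 = 0)) k =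
      |(Br (lp (L := L) hn 1)).coeff ((L : ℤ) + 2 * lp (L := L) hn 1 ∅ - 2 - 4 * k)| +
      |(Br (lp (L := L) hn 0)).coeff ((L : ℤ) + 2 * lp (L := L) hn 0 ∅ - 2 - 4 * k)| := by
  obtain ⟨a1, a2, -⟩ := est hn hd hL (π := 1) one_lt_two
  obtain ⟨b1, b2, -⟩ := est hn hd hL (π := 0) two_pos
  rw [← bracket_A] at a1 a2 ⊢
  rw [← bracket_B] at b1 b2 ⊢
  simp only [invert_apply] at b1 b2 ⊢
  set B := bracket (· + 1) (n + 1) (col (L := L) n) fun k => decide (col n k % 2 = 0) with hB
  set w : ℤ := ∑ k : ZMod L, if decide (col n k % 2 = 0) then -3 else 3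
  set J := jones (· + 1) (n + 1) (col (L := L) n) fun k => decide (col n k % 2 = 0) with hJ
  have h : ∀ e, |J.coeff e| = |B.coeff (-e - w)| := by
    intro e
    rw [hJ, jones, prod_neg, prod_T, invert_apply, ← hB,
      show ((-1 : LaurentPolynomial ℤ)) = C (-1) by simp, ← map_pow, ← single_eq_C_mul_T,
      AddMonoidAlgebra.coeff_single_mul_eq_mul_coeff (m₂ := -e - w)
        (fun m' _ => by constructor <;> intro h <;> linarith), abs_mul, abs_neg_one_pow, one_mul]
  have h0 : ∀ e, J.coeff e ≠ 0 ↔ B.coeff (-e - w) ≠ 0 := fun e => by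
    rw [← abs_ne_zero, h, abs_ne_zero]
  generalize (L : ℤ) + 2 * lp (L := L) hn 1 ∅ - 2 = MA at *
  generalize (L : ℤ) + 2 * lp (L := L) hn 0 ∅ - 2 = MB at *
  have lo : IsLeast {e | J.coeff e ≠ 0} (-MA - w) :=
    ⟨(h0 _).2 (by convert a2 using 2; ring), fun e he => by
      by_contra hc
      exact (h0 e).1 he (a1 _ (by omega))⟩
  have hi : IsGreatest {e | J.coeff e ≠ 0} (MB - w) :=
    ⟨(h0 _).2 (by convert b2 using 2; ring), fun e he => by
      by_contra hc
      exact (h0 e).1 he (by convert b1 (e + w) (by omega) using 2; ring)⟩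
  rw [twist, lo.csInf_eq, hi.csSup_eq, h, h]
  congr 3 <;> ring

end

lemma count_col (n m π : ℕ) (hπ : π < 2) [NeZero (m * n)] :
    (univ.filter fun k : ZMod (m * n) => col n k % 2 = π).card = m * ((n + 1 - π) / 2) := by
  have h1 : ∀ n : ℕ, ∑ c ∈ range n, (if c % 2 = π then 1 else 0) = (n + 1 - π) / 2 := by
    intro n
    induction n with
    | zero => simp; omega
    | succ n ih => rw [sum_range_succ, ih]; split_ifs <;> omega
  have h2 : ∀ m : ℕ, ∑ c ∈ range (m * n), (if c % n % 2 = π then 1 else 0) =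
      m * ((n + 1 - π) / 2) := by
    intro m
    induction m with
    | zero => simp
    | succ m ih =>
      rw [Nat.succ_mul, sum_range_add, ih, Nat.succ_mul, ← h1]
      congr 1
      refine sum_congr rfl fun c hc => ?_
      rw [Nat.mul_add_mod', Nat.mod_eq_of_lt (mem_range.1 hc)]
  rw [card_filter, ← h2]
  refine sum_bij (fun k _ => k.val) (fun k _ => mem_range.2 k.val_lt)
    (fun a _ b _ h => ZMod.val_injective _ h) (fun c hc => ⟨c, mem_univ _, ZMod.val_cast_of_lt
      (mem_range.1 hc)⟩) fun k _ => rfl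

lemma weaving_eq (n L : ℕ) [NeZero L] :
    jones (finRotate L) (n + 1) (fun k => k % n) (fun k => decide ((k : ℕ) % n % 2 = 0)) =
      jones (· + 1) (n + 1) (col (L := L) n) fun k => decide (col n k % 2 = 0) := by
  obtain ⟨L, rfl⟩ := Nat.exists_eq_succ_of_ne_zero (NeZero.ne L)
  have : (finRotate (L + 1) : Fin (L + 1) → Fin (L + 1)) = (· + 1) := funext finRotate_apply
  rw [this]
  rfl

lemma half (n : ℕ) (hn : 2 ≤ n) (π : ℕ) (hπ : π < 2) (k : ℕ) :
    ∃ c : ℕ → ℤ, (∀ m, ∀ _ : NeZero (m * n), c m = (Br (lp (L := m * n) hn π)).coeff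
      (((m * n : ℕ) : ℤ) + 2 * lp (L := m * n) hn π ∅ - 2 - 4 * k)) ∧
      Tendsto (fun m => |(c m : ℝ)| / (m : ℝ) ^ k) atTop
        (𝓝 (|(((n + 1 - π) / 2 : ℕ) : ℝ) - n| ^ k / k.factorial)) := by
  classical
  let V : ℕ → ℕ := fun m => if h : NeZero (m * n) then lp (L := m * n) hn π ∅ else 0
  let c : ℕ → ℤ := fun m => if h : NeZero (m * n) then (Br (lp (L := m * n) hn π)).coeff
      (((m * n : ℕ) : ℤ) + 2 * lp (L := m * n) hn π ∅ - 2 - 4 * k) else 0
  have ev : ∀ᶠ m in atTop, 3 * n ≤ m * n ∧ NeZero (m * n) ∧ 0 < m := by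
    filter_upwards [eventually_ge_atTop 3] with m hm
    have := Nat.mul_le_mul_right n hm
    exact ⟨this, ⟨by omega⟩, by omega⟩
  refine ⟨c, fun m h => dif_pos h, asym (fun m => m * n) V n _ (by positivity) ?_ ?_ c k
    (∑ j ∈ range (k + 1), (j * 2 ^ (j * (2 * n + 1) * (2 * n + 1) * (2 * n + 1)) *
      (2 * ((n + 1 : ℕ) : ℝ) ^ (k - j)) : ℝ)) ?_⟩
  · refine tendsto_const_nhds.congr' ?_
    filter_upwards [ev] with m hm
    have : (m : ℝ) ≠ 0 := by exact_mod_cast hm.2.2.ne'
    push_cast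
    field_simp
  · set v : ℕ := (n + 1 - π) / 2
    have h0 : Tendsto (fun m : ℕ => ((n : ℝ) + 1) / m + v) atTop (𝓝 (0 + v)) :=
      (tendsto_const_div_atTop_nhds_zero_nat _).add_const _
    rw [zero_add] at h0
    refine tendsto_of_tendsto_of_tendsto_of_le_of_le' tendsto_const_nhds h0 ?_ ?_ <;>
      filter_upwards [ev] with m ⟨h1, h2, h3⟩ <;>
      have h4 := lp_bounds hn (Dvd.intro_left m rfl) h1 hπ <;> rw [count_col n m π hπ] at h4 <;>
      have h5 : (0 : ℝ) < m := (by exact_mod_cast h3) <;> simp only [V, dif_pos h2]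
    · rw [le_div_iff₀ h5, mul_comm]
      exact_mod_cast h4.1
    · rw [div_le_iff₀ h5, add_mul, div_mul_cancel₀ _ h5.ne', mul_comm (v : ℝ)]
      exact_mod_cast h4.2
  · filter_upwards [ev] with m ⟨h1, h2, h3⟩
    simp only [V, c, dif_pos h2]
    exact (est hn (Dvd.intro_left m rfl) h1 hπ).2.2 k

theorem result (n k : ℕ) (hn : 2 ≤ n) (_hk : 1 ≤ k) :
    Tendsto (fun m : ℕ => (twist (weaving n m) k : ℝ) /
      (((((n / 2 + n % 2 : ℕ) : ℝ)) ^ k + ((n / 2 : ℕ) : ℝ) ^ k) * (m : ℝ) ^ k / k.factorial))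
      atTop (𝓝 1) := by
  obtain ⟨c1, e1, t1⟩ := half n hn 1 one_lt_two k
  obtain ⟨c0, e0, t0⟩ := half n hn 0 two_pos k
  have a1 : |(((n + 1 - 1) / 2 : ℕ) : ℝ) - n| = ((n / 2 + n % 2 : ℕ) : ℝ) := by
    rw [abs_sub_comm, ← Nat.cast_sub (by omega), Nat.abs_cast]
    congr 1; omega
  have a0 : |(((n + 1 - 0) / 2 : ℕ) : ℝ) - n| = ((n / 2 : ℕ) : ℝ) := by
    rw [abs_sub_comm, ← Nat.cast_sub (by omega), Nat.abs_cast]
    congr 1; omega
  rw [a1] at t1
  rw [a0] at t0
  have hp : (0 : ℝ) < ((n / 2 : ℕ) : ℝ) := by exact_mod_cast (by omega : 0 < n / 2)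
  have := (t1.add t0).div_const
    (((((n / 2 + n % 2 : ℕ) : ℝ)) ^ k + ((n / 2 : ℕ) : ℝ) ^ k) / k.factorial)
  rw [← add_div, div_self (by positivity)] at this
  refine this.congr' ?_
  filter_upwards [eventually_ge_atTop 3] with m hm
  have h1 := Nat.mul_le_mul_right n hm
  have h2 : NeZero (m * n) := ⟨by omega⟩
  have h5 : (0 : ℝ) < m := by exact_mod_cast (by omega : 0 < m)
  rw [weaving, weaving_eq, twist_eq hn (Dvd.intro_left m rfl) h1, ← e1 m h2, ← e0 m h2]
  push_cast
  field_simp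

end Pool.Agent.Results.MP_592c03_gt.Holds
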